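import Mathlib

set_option autoImplicit false
set_option maxRecDepth 100000

namespace Pool.Agent.Results.MP_577aaf_co.DanzerThreshold

/-- A finite set of points of the plane is in general position if no three distinct points of it
are collinear. -/
def GeneralPosition (S : Finset (ℝ × ℝ)) : Prop :=
  ∀ p ∈ S, ∀ q ∈ S, ∀ r ∈ S, p ≠ q → p ≠ r → q ≠ r → ¬ Collinear ℝ {p, q, r}

/-- The set of vectors `q - p` with `p, q ∈ S` (`p = q` is allowed). -/
noncomputable def vectors (S : Finset (ℝ × ℝ)) : Finset (ℝ × ℝ) :=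
  (S ×ˢ S).image fun x => x.2 - x.1

/-- The minimum number of vectors determined by `n` points in general position in the plane. -/
noncomputable def v (n : ℕ) : ℕ :=
  sInf {m | ∃ S : Finset (ℝ × ℝ), S.card = n ∧ GeneralPosition S ∧ (vectors S).card = m}

/-! ### General position via the cross product -/

/-- Cross product of two vectors. -/
def cr (x y : ℝ × ℝ) : ℝ := x.1 * y.2 - x.2 * y.1

theorem collinear_cr {p q r : ℝ × ℝ} (h : Collinear ℝ {p, q, r}) : cr (q - p) (r - p) = 0 := by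
  rw [collinear_iff_of_mem (p₀ := p) (by simp)] at h
  obtain ⟨w, hw⟩ := h
  obtain ⟨a, ha⟩ := hw q (by simp)
  obtain ⟨b, hb⟩ := hw r (by simp)
  rw [vadd_eq_add] at ha hb
  rw [ha, hb]
  simp only [cr, add_sub_cancel_right, Prod.smul_fst, Prod.smul_snd, smul_eq_mul]
  ring

/-- No vanishing cross product. -/
def GP (S : Finset (ℝ × ℝ)) : Prop :=
  ∀ p ∈ S, ∀ q ∈ S, ∀ r ∈ S, p ≠ q → p ≠ r → q ≠ r → cr (q - p) (r - p) ≠ 0

theorem GP.generalPosition {S : Finset (ℝ × ℝ)} (h : GP S) : GeneralPosition S :=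
  fun p hp q hq r hr h1 h2 h3 h4 => h p hp q hq r hr h1 h2 h3 (collinear_cr h4)

/-! ### Doubling -/

theorem finite_quad (a b c : ℝ) (h : ¬ (a = 0 ∧ b = 0)) :
    {s : ℝ | a * s ^ 2 + b * s + c = 0}.Finite := by
  let P : Polynomial ℝ := Polynomial.C a * Polynomial.X ^ 2 + Polynomial.C b * Polynomial.X +
    Polynomial.C c
  have hP : P ≠ 0 := by
    intro h0
    refine h ⟨?_, ?_⟩
    · have := congrArg (fun Q : Polynomial ℝ => Q.coeff 2) h0
      simpa [P, Polynomial.coeff_X, Polynomial.coeff_C] using this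
    · have := congrArg (fun Q : Polynomial ℝ => Q.coeff 1) h0
      simpa [P, Polynomial.coeff_X, Polynomial.coeff_C] using this
  refine (Polynomial.finite_setOfPred_isRoot hP).subset ?_
  intro s hs
  simpa [P, Polynomial.IsRoot] using hs

/-- The point `a + ε t`. -/
def pt (t : ℝ × ℝ) (x : (ℝ × ℝ) × ℝ) : ℝ × ℝ := x.1 + x.2 • t

/-- The set `S ∪ (S + t)`. -/
noncomputable def dbl (S : Finset (ℝ × ℝ)) (t : ℝ × ℝ) : Finset (ℝ × ℝ) :=
  (S ×ˢ {0, 1}).image (pt t)

theorem exists_good (S : Finset (ℝ × ℝ)) (hS : GP S) : ∃ t : ℝ × ℝ,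
    (∀ a ∈ S, ∀ b ∈ S, a + t ≠ b) ∧ GP (dbl S t) := by
  classical
  let A : Finset ((ℝ × ℝ) × ℝ) := S ×ˢ {0, 1}
  -- coefficients
  let u : ((ℝ × ℝ) × ℝ) × ((ℝ × ℝ) × ℝ) × ((ℝ × ℝ) × ℝ) → ℝ × ℝ := fun x =>
    (x.2.2.2 - x.1.2) • (x.2.1.1 - x.1.1) - (x.2.1.2 - x.1.2) • (x.2.2.1 - x.1.1)
  let c : ((ℝ × ℝ) × ℝ) × ((ℝ × ℝ) × ℝ) × ((ℝ × ℝ) × ℝ) → ℝ := fun x =>
    cr (x.2.1.1 - x.1.1) (x.2.2.1 - x.1.1)
  let bad1 : Set ℝ := ⋃ x ∈ (A ×ˢ A ×ˢ A).filter (fun x => u x ≠ 0),
    {s : ℝ | (u x).1 * s ^ 2 + (-(u x).2) * s + c x = 0}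
  let bad2 : Set ℝ := ⋃ x ∈ S ×ˢ S, {s : ℝ | s = x.2.1 - x.1.1}
  have hb1 : bad1.Finite := by
    refine Set.Finite.biUnion (Finset.finite_toSet _) ?_
    intro x hx
    refine finite_quad _ _ _ ?_
    rintro ⟨h1, h2⟩
    exact (Finset.mem_filter.1 hx).2 (Prod.ext h1 (neg_eq_zero.1 h2))
  have hb2 : bad2.Finite := by
    refine Set.Finite.biUnion (Finset.finite_toSet _) ?_
    intro x _
    exact Set.finite_singleton _
  obtain ⟨s, hs⟩ := (hb1.union hb2).infinite_compl.nonempty
  rw [Set.mem_compl_iff, Set.mem_union, not_or] at hs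
  obtain ⟨hs1, hs2⟩ := hs
  refine ⟨(s, s ^ 2), ?_, ?_⟩
  · intro a ha b hb hab
    refine hs2 ?_
    simp only [bad2, Set.mem_iUnion, Set.mem_ofPred_eq]
    refine ⟨(a, b), Finset.mem_product.2 ⟨ha, hb⟩, ?_⟩
    have := congrArg Prod.fst hab
    simp only [Prod.fst_add] at this
    show s = b.1 - a.1
    linarith
  · intro p hp q hq r hr hpq hpr hqr
    obtain ⟨x, hx, rfl⟩ := Finset.mem_image.1 hp
    obtain ⟨y, hy, rfl⟩ := Finset.mem_image.1 hq
    obtain ⟨z, hz, rfl⟩ := Finset.mem_image.1 hr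
    have key : cr (pt (s, s ^ 2) y - pt (s, s ^ 2) x) (pt (s, s ^ 2) z - pt (s, s ^ 2) x) =
        (u (x, y, z)).1 * s ^ 2 + (-(u (x, y, z)).2) * s + c (x, y, z) := by
      simp only [cr, pt, u, c, Prod.fst_add, Prod.snd_add, Prod.fst_sub, Prod.snd_sub,
        Prod.smul_fst, Prod.smul_snd, smul_eq_mul]
      ring
    rw [key]
    by_cases hu : u (x, y, z) = 0
    · rw [hu]
      simp only [Prod.fst_zero, Prod.snd_zero, zero_mul, neg_zero, zero_add]
      obtain ⟨hxS, hx2⟩ := Finset.mem_product.1 hx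
      obtain ⟨hyS, hy2⟩ := Finset.mem_product.1 hy
      obtain ⟨hzS, hz2⟩ := Finset.mem_product.1 hz
      obtain ⟨a, e⟩ := x
      obtain ⟨b, f⟩ := y
      obtain ⟨d, g⟩ := z
      simp only [Finset.mem_insert, Finset.mem_singleton] at hx2 hy2 hz2 hxS hyS hzS
      have hu1 : (g - e) * (b.1 - a.1) - (f - e) * (d.1 - a.1) = 0 := congrArg Prod.fst hu
      have hu2 : (g - e) * (b.2 - a.2) - (f - e) * (d.2 - a.2) = 0 := congrArg Prod.snd hu
      rcases hx2 with rfl | rfl <;> rcases hy2 with rfl | rfl <;> rcases hz2 with rfl | rfl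
      · refine hS a hxS b hyS d hzS ?_ ?_ ?_
        · rintro rfl; exact hpq rfl
        · rintro rfl; exact hpr rfl
        · rintro rfl; exact hqr rfl
      · have h : a = b := Prod.ext (by linarith) (by linarith)
        exact absurd (by rw [h]) hpq
      · have h : a = d := Prod.ext (by linarith) (by linarith)
        exact absurd (by rw [h]) hpr
      · have h : b = d := Prod.ext (by linarith) (by linarith)
        exact absurd (by rw [h]) hqr
      · have h : b = d := Prod.ext (by linarith) (by linarith)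
        exact absurd (by rw [h]) hqr
      · have h : a = d := Prod.ext (by linarith) (by linarith)
        exact absurd (by rw [h]) hpr
      · have h : a = b := Prod.ext (by linarith) (by linarith)
        exact absurd (by rw [h]) hpq
      · refine hS a hxS b hyS d hzS ?_ ?_ ?_
        · rintro rfl; exact hpq rfl
        · rintro rfl; exact hpr rfl
        · rintro rfl; exact hqr rfl
    · intro h0
      refine hs1 ?_
      simp only [bad1, Set.mem_iUnion, Set.mem_ofPred_eq]
      exact ⟨(x, y, z), Finset.mem_filter.2 ⟨Finset.mem_product.2 ⟨hx,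
        Finset.mem_product.2 ⟨hy, hz⟩⟩, hu⟩, h0⟩

theorem doubling (S : Finset (ℝ × ℝ)) (hS : GP S) : ∃ S' : Finset (ℝ × ℝ),
    GP S' ∧ S'.card = 2 * S.card ∧ (vectors S').card ≤ 3 * (vectors S).card := by
  classical
  obtain ⟨t, ht, hG⟩ := exists_good S hS
  refine ⟨dbl S t, hG, ?_, ?_⟩
  · rw [dbl, Finset.card_image_of_injOn, Finset.card_product]
    · rw [Finset.card_pair zero_ne_one, mul_comm]
    · rintro ⟨a, e⟩ hx ⟨b, f⟩ hy hxy
      obtain ⟨haS, he⟩ := Finset.mem_product.1 hx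
      obtain ⟨hbS, hf⟩ := Finset.mem_product.1 hy
      simp only [Finset.mem_insert, Finset.mem_singleton] at he hf haS hbS
      simp only [pt] at hxy
      rcases he with rfl | rfl <;> rcases hf with rfl | rfl
      · rw [zero_smul, add_zero, add_zero] at hxy
        rw [hxy]
      · rw [zero_smul, add_zero, one_smul] at hxy
        exact absurd hxy.symm (ht b hbS a haS)
      · rw [zero_smul, add_zero, one_smul] at hxy
        exact absurd hxy (ht a haS b hbS)
      · rw [one_smul] at hxy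
        rw [add_right_cancel hxy]
  · have hsub : vectors (dbl S t) ⊆
        ((vectors S) ×ˢ ({0, 1, -1} : Finset ℝ)).image (pt t) := by
      intro z hz
      obtain ⟨⟨p, q⟩, hpq, rfl⟩ := Finset.mem_image.1 hz
      obtain ⟨hp, hq⟩ := Finset.mem_product.1 hpq
      obtain ⟨⟨a, e⟩, hx, rfl⟩ := Finset.mem_image.1 hp
      obtain ⟨⟨b, f⟩, hy, rfl⟩ := Finset.mem_image.1 hq
      obtain ⟨haS, he⟩ := Finset.mem_product.1 hx
      obtain ⟨hbS, hf⟩ := Finset.mem_product.1 hy
      simp only [Finset.mem_insert, Finset.mem_singleton] at he hf haS hbS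
      refine Finset.mem_image.2 ⟨(b - a, f - e), Finset.mem_product.2 ⟨?_, ?_⟩, ?_⟩
      · exact Finset.mem_image.2 ⟨(a, b), Finset.mem_product.2 ⟨haS, hbS⟩, rfl⟩
      · rcases he with rfl | rfl <;> rcases hf with rfl | rfl <;> simp
      · simp only [pt, sub_smul]
        abel
    calc (vectors (dbl S t)).card ≤ _ := Finset.card_le_card hsub
      _ ≤ _ := Finset.card_image_le
      _ = (vectors S).card * ({0, 1, -1} : Finset ℝ).card := Finset.card_product _ _
      _ ≤ (vectors S).card * 3 := Nat.mul_le_mul_left _ Finset.card_le_three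
      _ = 3 * (vectors S).card := mul_comm _ _

/-! ### The set of 64 points -/

/-- Quadruples with entries 0, 1, 2, 3. -/
def quads : List (ℤ × ℤ × ℤ × ℤ) :=
  [0, 1, 2, 3].flatMap fun a => [0, 1, 2, 3].flatMap fun b => [0, 1, 2, 3].flatMap fun c =>
    [0, 1, 2, 3].map fun d => (a, b, c, d)

/-- Whether an entry is extreme. -/
def outer (a : ℤ) : ℕ := if a = 0 ∨ a = 3 then 1 else 0

/-- Quadruples with exactly one extreme entry. -/
def T : List (ℤ × ℤ × ℤ × ℤ) := quads.filter fun x =>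
  outer x.1 + outer x.2.1 + outer x.2.2.1 + outer x.2.2.2 = 1

/-- A projection to the plane. -/
def phi (x : ℤ × ℤ × ℤ × ℤ) : ℤ × ℤ :=
  (x.1 - 4 * x.2.2.1 - 21 * x.2.2.2, x.2.1 + 20 * x.2.2.1 - 4 * x.2.2.2)

/-- Weight of a difference. -/
def wt (a : ℤ) : ℕ := if a = 3 ∨ a = -3 then 2 else if a = 2 ∨ a = -2 then 1 else 0

/-- Entries of differences. -/
def E : List ℤ := [-3, -2, -1, 0, 1, 2, 3]

/-- Possible differences. -/
def ok (x : ℤ × ℤ × ℤ × ℤ) : Bool :=
  decide (wt x.1 + wt x.2.1 + wt x.2.2.1 + wt x.2.2.2 ≤ 2) &&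
    !(decide (wt x.1 + wt x.2.1 + wt x.2.2.1 + wt x.2.2.2 = 1) &&
      decide (x.1.natAbs + x.2.1.natAbs + x.2.2.1.natAbs + x.2.2.2.natAbs = 2))

/-- The list of the differences. -/
def Z : List (ℤ × ℤ × ℤ × ℤ) :=
  (E.flatMap fun a => E.flatMap fun b => E.flatMap fun c => E.map fun d => (a, b, c, d)).filter
    fun x => ok x

theorem Z_length : Z.length = 721 := by decide +kernel

theorem T_length : T.length = 64 := by decide +kernel

/-- Membership in `Z`, entry by entry. -/
def inZ (x : ℤ × ℤ × ℤ × ℤ) : Bool :=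
  E.contains x.1 && E.contains x.2.1 && E.contains x.2.2.1 && E.contains x.2.2.2 && ok x

theorem mem_Z {x : ℤ × ℤ × ℤ × ℤ} (h : inZ x = true) : x ∈ Z := by
  obtain ⟨a, b, c, d⟩ := x
  simp only [inZ, Bool.and_eq_true, List.contains_iff_mem] at h
  obtain ⟨⟨⟨⟨ha, hb⟩, hc⟩, hd⟩, hok⟩ := h
  refine List.mem_filter.2 ⟨?_, hok⟩
  exact List.mem_flatMap.2 ⟨a, ha, List.mem_flatMap.2 ⟨b, hb, List.mem_flatMap.2 ⟨c, hc,
    List.mem_map.2 ⟨d, hd, rfl⟩⟩⟩⟩

theorem T_sub : (T.all fun x => T.all fun y => inZ (y - x)) = true := by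
  decide +kernel

/-- The 64 points. -/
def L : List (ℤ × ℤ) := T.map phi

/-- Integer cross product. -/
def cross (p q r : ℤ × ℤ) : ℤ := (q.1 - p.1) * (r.2 - p.2) - (q.2 - p.2) * (r.1 - p.1)

/-- Check of all pairs of a list against a point. -/
def chk2 (p : ℤ × ℤ) : List (ℤ × ℤ) → Bool
  | [] => true
  | q :: t => (t.all fun r => cross p q r != 0) && chk2 p t

/-- Check of all triples of a list. -/
def chk1 : List (ℤ × ℤ) → Bool
  | [] => true
  | p :: t => chk2 p t && chk1 t

theorem chk2_spec (p : ℤ × ℤ) (l : List (ℤ × ℤ)) (h : chk2 p l = true) :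
    ∀ q ∈ l, ∀ r ∈ l, q ≠ r → cross p q r ≠ 0 := by
  induction l with
  | nil => intro q hq; exact absurd hq List.not_mem_nil
  | cons a t ih =>
    simp only [chk2, Bool.and_eq_true, List.all_eq_true, bne_iff_ne] at h
    obtain ⟨h1, h2⟩ := h
    intro q hq r hr hqr
    rcases List.mem_cons.1 hq with rfl | hq'
    · rcases List.mem_cons.1 hr with rfl | hr'
      · exact absurd rfl hqr
      · exact h1 r hr'
    · rcases List.mem_cons.1 hr with rfl | hr'
      · intro h0
        refine h1 q hq' ?_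
        unfold cross at h0 ⊢
        linarith
      · exact ih h2 q hq' r hr' hqr

theorem chk1_spec (l : List (ℤ × ℤ)) (h : chk1 l = true) :
    ∀ p ∈ l, ∀ q ∈ l, ∀ r ∈ l, p ≠ q → p ≠ r → q ≠ r → cross p q r ≠ 0 := by
  induction l with
  | nil => intro q hq; exact absurd hq List.not_mem_nil
  | cons a t ih =>
    simp only [chk1, Bool.and_eq_true] at h
    obtain ⟨h1, h2⟩ := h
    have h1' := chk2_spec a t h1
    intro p hp q hq r hr hpq hpr hqr
    rcases List.mem_cons.1 hp with rfl | hp'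
    · rcases List.mem_cons.1 hq with rfl | hq'
      · exact absurd rfl hpq
      · rcases List.mem_cons.1 hr with rfl | hr'
        · exact absurd rfl hpr
        · exact h1' q hq' r hr' hqr
    · rcases List.mem_cons.1 hq with rfl | hq'
      · rcases List.mem_cons.1 hr with rfl | hr'
        · exact absurd rfl hqr
        · intro h0
          refine h1' p hp' r hr' hpr ?_
          unfold cross at h0 ⊢
          linarith
      · rcases List.mem_cons.1 hr with rfl | hr'
        · intro h0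
          refine h1' p hp' q hq' hpq ?_
          unfold cross at h0 ⊢
          linarith
        · exact ih h2 p hp' q hq' r hr' hpq hpr hqr

theorem L_check : chk1 L = true := by decide +kernel

theorem L_nodup : L.Nodup := by decide +kernel

/-- Integer points as points of the plane. -/
def toR (x : ℤ × ℤ) : ℝ × ℝ := (x.1, x.2)

theorem toR_inj : Function.Injective toR := by
  intro x y h
  have h1 : (x.1 : ℝ) = y.1 := congrArg Prod.fst h
  have h2 : (x.2 : ℝ) = y.2 := congrArg Prod.snd h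
  exact Prod.ext (by exact_mod_cast h1) (by exact_mod_cast h2)

/-- The set of 64 points. -/
noncomputable def S64 : Finset (ℝ × ℝ) := L.toFinset.image toR

theorem S64_card : S64.card = 64 := by
  rw [S64, Finset.card_image_of_injective _ toR_inj, List.toFinset_card_of_nodup L_nodup, L,
    List.length_map, T_length]

theorem S64_GP : GP S64 := by
  intro p hp q hq r hr hpq hpr hqr
  obtain ⟨x, hx, rfl⟩ := Finset.mem_image.1 hp
  obtain ⟨y, hy, rfl⟩ := Finset.mem_image.1 hq
  obtain ⟨z, hz, rfl⟩ := Finset.mem_image.1 hr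
  have h := chk1_spec L L_check x (List.mem_toFinset.1 hx) y (List.mem_toFinset.1 hy) z
    (List.mem_toFinset.1 hz) (fun h => hpq (by rw [h])) (fun h => hpr (by rw [h]))
    (fun h => hqr (by rw [h]))
  intro h0
  refine h ?_
  have h1 : ((cross x y z : ℤ) : ℝ) = cr (toR y - toR x) (toR z - toR x) := by
    simp only [cross, cr, toR, Prod.fst_sub, Prod.snd_sub]
    push_cast
    ring
  rw [h0] at h1
  exact_mod_cast h1

theorem phi_sub (x y : ℤ × ℤ × ℤ × ℤ) : phi (x - y) = phi x - phi y := by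
  simp only [phi, Prod.fst_sub, Prod.snd_sub]
  refine Prod.ext ?_ ?_ <;> simp <;> ring

theorem S64_vectors : (vectors S64).card ≤ 721 := by
  classical
  have hsub : vectors S64 ⊆ (Z.toFinset.image phi).image toR := by
    intro w hw
    obtain ⟨⟨p, q⟩, hpq, rfl⟩ := Finset.mem_image.1 hw
    obtain ⟨hp, hq⟩ := Finset.mem_product.1 hpq
    obtain ⟨x, hx, rfl⟩ := Finset.mem_image.1 hp
    obtain ⟨y, hy, rfl⟩ := Finset.mem_image.1 hq
    obtain ⟨x', hx', rfl⟩ := List.mem_map.1 (List.mem_toFinset.1 hx)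
    obtain ⟨y', hy', rfl⟩ := List.mem_map.1 (List.mem_toFinset.1 hy)
    have h := List.all_eq_true.1 (List.all_eq_true.1 T_sub x' hx') y' hy'
    refine Finset.mem_image.2 ⟨phi (y' - x'), Finset.mem_image.2 ⟨y' - x',
      List.mem_toFinset.2 (mem_Z h), rfl⟩, ?_⟩
    rw [phi_sub]
    refine Prod.ext ?_ ?_
    · show (((phi y').1 - (phi x').1 : ℤ) : ℝ) = ((phi y').1 : ℝ) - ((phi x').1 : ℝ)
      push_cast
      ring
    · show (((phi y').2 - (phi x').2 : ℤ) : ℝ) = ((phi y').2 : ℝ) - ((phi x').2 : ℝ)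
      push_cast
      ring
  calc (vectors S64).card ≤ _ := Finset.card_le_card hsub
    _ ≤ _ := Finset.card_image_le
    _ ≤ _ := Finset.card_image_le
    _ ≤ Z.length := List.toFinset_card_le _
    _ = 721 := Z_length

theorem exists_set (j : ℕ) : ∃ S : Finset (ℝ × ℝ), GP S ∧ S.card = 2 ^ (6 + j) ∧
    (vectors S).card ≤ 721 * 3 ^ j := by
  induction j with
  | zero => exact ⟨S64, S64_GP, S64_card, by simpa using S64_vectors⟩
  | succ j ih =>
    obtain ⟨S, hS, hc, hv⟩ := ih
    obtain ⟨S', hS', hc', hv'⟩ := doubling S hS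
    refine ⟨S', hS', ?_, ?_⟩
    · rw [hc', hc]; ring
    · calc (vectors S').card ≤ 3 * (vectors S).card := hv'
        _ ≤ 3 * (721 * 3 ^ j) := Nat.mul_le_mul_left _ hv
        _ = 721 * 3 ^ (j + 1) := by ring

/-- For every `k ≥ 6` some `2 ^ k` points in general position in the plane determine fewer than
`3 ^ k` vectors. -/
theorem result : ∀ k : ℕ, 6 ≤ k → v (2 ^ k) < 3 ^ k := by
  intro k hk
  obtain ⟨j, rfl⟩ := Nat.exists_eq_add_of_le hk
  obtain ⟨S, hS, hc, hv⟩ := exists_set j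
  calc v (2 ^ (6 + j)) ≤ (vectors S).card := Nat.sInf_le ⟨S, hc, hS.generalPosition, rfl⟩
    _ ≤ 721 * 3 ^ j := hv
    _ < 729 * 3 ^ j := Nat.mul_lt_mul_of_pos_right (by norm_num) (by positivity)
    _ = 3 ^ (6 + j) := by rw [pow_add]; norm_num

end Pool.Agent.Results.MP_577aaf_co.DanzerThreshold
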