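import Pool.Agent.OSP_h95.VBound

/-!
The order of magnitude of the exponent of the minimum number `v n` of difference vectors of `n`
points in general position in the plane: `v n ≥ n exp (c √(log n))`.

Outline of the proof.  Let `S` be a set of `n` points in general position with `n e ^ ℓ` difference
vectors.  A `ℚ`-linear map transports `S` to a set `A` of integers with `|A + A| ≤ e ^ (2 ℓ) n`.
The theorem `Pool.Agent.OSP.long_ap` gives an arithmetic progression `Q` with
`|A + Q| ≤ e ^ (C (1 + ℓ)) |A|` and `log |Q| ≥ log n / (C (1 + ℓ)) - C (1 + ℓ)`.  As `S` is in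
general position `|A + Q| ≥ |A| |Q| / 2`, so that `log n ≤ C (1 + ℓ) ^ 2`.
-/

set_option autoImplicit false

namespace Pool.Agent.Results.MP_577aaf_co.ExpSqrtLog

open scoped Pointwise

/-- A finite set of points of the plane is in general position if no three distinct points of it
are collinear. -/
def GeneralPosition (S : Finset (ℝ × ℝ)) : Prop :=
  ∀ p ∈ S, ∀ q ∈ S, ∀ r ∈ S, p ≠ q → p ≠ r → q ≠ r → ¬ Collinear ℝ {p, q, r}

/-- The set of vectors `q - p` with `p, q ∈ S` (`p = q` is allowed). -/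
noncomputable def vectors (S : Finset (ℝ × ℝ)) : Finset (ℝ × ℝ) :=
  (S ×ˢ S).image fun x => x.2 - x.1

/-- The minimum number of vectors determined by `n` points in general position in the plane. -/
noncomputable def v (n : ℕ) : ℕ :=
  sInf {m | ∃ S : Finset (ℝ × ℝ), S.card = n ∧ GeneralPosition S ∧ (vectors S).card = m}

theorem two_mul_le (S : Finset (ℝ × ℝ)) (hne : S.Nonempty) :
    2 * S.card ≤ (vectors S).card + 1 := by
  classical
  let F : Finset (ℝ × ℝ) := ((S ×ˢ S).image fun x => x.1 - x.2).filter fun z => z ≠ 0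
  obtain ⟨g, ψ, hψ, hg⟩ := Pool.Agent.OSP.Plane_functional S F fun z hz => (Finset.mem_filter.1 hz).2
  have hinj : Set.InjOn g (S : Set (ℝ × ℝ)) := by
    intro p hp q hq h
    by_contra hcon
    refine hg (p - q) (Finset.mem_filter.2 ⟨Finset.mem_image.2 ⟨(p, q),
      Finset.mem_product.2 ⟨hp, hq⟩, rfl⟩, sub_ne_zero.2 hcon⟩) ?_
    rw [map_sub, h, sub_self]
  let A : Finset ℚ := S.image g
  have hAc : A.card = S.card := Finset.card_image_of_injOn hinj
  have hAne : A.Nonempty := hne.image g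
  have h1 := cauchy_davenport_add_of_linearOrder_isCancelAdd hAne hAne.neg
  rw [Finset.card_neg, hAc] at h1
  have h2 : (A + -A).card ≤ (vectors S).card := by
    refine le_trans (Finset.card_le_card (t := (vectors S).image g) ?_) Finset.card_image_le
    intro z hz
    obtain ⟨x, hx, y, hy, rfl⟩ := Finset.mem_add.1 hz
    obtain ⟨p, hp, rfl⟩ := Finset.mem_image.1 hx
    rw [Finset.mem_neg'] at hy
    obtain ⟨q, hq, h⟩ := Finset.mem_image.1 hy
    refine Finset.mem_image.2 ⟨p - q, Finset.mem_image.2 ⟨(q, p), Finset.mem_product.2 ⟨hq, hp⟩,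
      rfl⟩, ?_⟩
    rw [map_sub, h]
    ring
  omega

/-- Cross product of two vectors. -/
def cr (x y : ℝ × ℝ) : ℝ := x.1 * y.2 - x.2 * y.1

theorem collinear_cr {p q r : ℝ × ℝ} (h : Collinear ℝ {p, q, r}) : cr (q - p) (r - p) = 0 := by
  rw [collinear_iff_of_mem (p₀ := p) (by simp)] at h
  obtain ⟨w, hw⟩ := h
  obtain ⟨a, ha⟩ := hw q (by simp)
  obtain ⟨b, hb⟩ := hw r (by simp)
  rw [vadd_eq_add] at ha hb
  rw [ha, hb]
  simp only [cr, add_sub_cancel_right, Prod.smul_fst, Prod.smul_snd, smul_eq_mul]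
  ring

theorem exists_gp (n : ℕ) : ∃ S : Finset (ℝ × ℝ), S.card = n ∧ GeneralPosition S := by
  classical
  let f : ℕ → ℝ × ℝ := fun i => ((i : ℝ), (i : ℝ) ^ 2)
  have hf : Function.Injective f := by
    intro i j h
    have h1 : (i : ℝ) = j := congrArg Prod.fst h
    exact_mod_cast h1
  refine ⟨(Finset.range n).image f, ?_, ?_⟩
  · rw [Finset.card_image_of_injective _ hf, Finset.card_range]
  · intro p hp q hq r hr hpq hpr hqr hcol
    obtain ⟨i, _, rfl⟩ := Finset.mem_image.1 hp
    obtain ⟨j, _, rfl⟩ := Finset.mem_image.1 hq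
    obtain ⟨k, _, rfl⟩ := Finset.mem_image.1 hr
    have h := collinear_cr hcol
    have h1 : cr (f j - f i) (f k - f i) = ((j : ℝ) - i) * (k - i) * (k - j) := by
      simp only [cr, f, Prod.fst_sub, Prod.snd_sub]
      ring
    rw [h1] at h
    have hij : (j : ℝ) - i ≠ 0 := sub_ne_zero.2 fun h => hpq (by
      have : j = i := by exact_mod_cast h
      rw [this])
    have hik : (k : ℝ) - i ≠ 0 := sub_ne_zero.2 fun h => hpr (by
      have : k = i := by exact_mod_cast h
      rw [this])
    have hjk : (k : ℝ) - j ≠ 0 := sub_ne_zero.2 fun h => hqr (by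
      have : k = j := by exact_mod_cast h
      rw [this])
    exact (mul_ne_zero (mul_ne_zero hij hik) hjk) h

/-- There is a constant `c > 0` such that `n ≥ 2` points in general position in the plane always
determine at least `n * exp (c * √(log n))` vectors. -/
theorem result : ∃ c : ℝ, 0 < c ∧ ∀ n : ℕ, 2 ≤ n →
    (n : ℝ) * Real.exp (c * √(Real.log n)) ≤ v n := by
  classical
  obtain ⟨C, hC, hQ⟩ := Pool.Agent.OSP.log_card_le
  refine ⟨1 / (4 * √C), by positivity, ?_⟩
  intro n hn
  have hmem : v n ∈ {m | ∃ S : Finset (ℝ × ℝ), S.card = n ∧ GeneralPosition S ∧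
      (vectors S).card = m} := by
    refine Nat.sInf_mem ?_
    obtain ⟨S, h1, h2⟩ := exists_gp n
    exact ⟨_, S, h1, h2, rfl⟩
  obtain ⟨S, hSn, hS, hSv⟩ := hmem
  have hn0 : (0 : ℝ) < n := by
    have : 0 < n := by omega
    exact_mod_cast this
  have hne : S.Nonempty := by
    rw [← Finset.card_pos, hSn]
    omega
  have hV2 : (3 / 2 : ℝ) * n ≤ v n := by
    have h1 := two_mul_le S hne
    rw [hSn, hSv] at h1
    have h2 : (2 : ℝ) * n ≤ v n + 1 := by exact_mod_cast h1
    have h3 : (2 : ℝ) ≤ n := by exact_mod_cast hn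
    linarith
  have hVpos : (0 : ℝ) < v n := by linarith
  set ℓ : ℝ := Real.log (v n / n) with hℓ
  have hratio : (3 / 2 : ℝ) ≤ v n / n := by
    rw [le_div_iff₀ hn0]
    exact hV2
  have hℓ3 : 1 / 3 ≤ ℓ := by
    rw [hℓ, Real.le_log_iff_exp_le (by positivity)]
    refine le_trans ?_ hratio
    have h1 := Real.exp_one_lt_d9
    have h2 : Real.exp (1 / 3) ^ 3 = Real.exp 1 := by
      rw [← Real.exp_nat_mul]
      norm_num
    by_contra h3
    push Not at h3
    have h4 : (3 / 2 : ℝ) ^ 3 < Real.exp (1 / 3) ^ 3 := by gcongr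
    rw [h2] at h4
    norm_num at h4 h1
    linarith
  have hVexp : ((vectors S).card : ℝ) = S.card * Real.exp ℓ := by
    rw [hSv, hSn, hℓ, Real.exp_log (by positivity)]
    field_simp
  have hsub : S - S ⊆ vectors S := by
    intro z hz
    obtain ⟨x, hx, y, hy, rfl⟩ := Finset.mem_sub.1 hz
    exact Finset.mem_image.2 ⟨(y, x), Finset.mem_product.2 ⟨hy, hx⟩, rfl⟩
  have hmain := hQ S ℓ hS hne (by linarith) (by
    have h1 : ((S - S).card : ℝ) ≤ (vectors S).card := by
      exact_mod_cast Finset.card_le_card hsub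
    rw [hVexp] at h1
    linarith)
  rw [hSn] at hmain
  have hx0 : 0 ≤ Real.log n := Real.log_nonneg (by exact_mod_cast (by omega : 1 ≤ n))
  have hsq : √(Real.log n) ≤ √C * (1 + ℓ) := by
    rw [← Real.sqrt_sq (by linarith : (0 : ℝ) ≤ 1 + ℓ), ← Real.sqrt_mul (by linarith)]
    exact Real.sqrt_le_sqrt hmain
  have hsC : 0 < √C := Real.sqrt_pos.2 (by linarith)
  have hfin : 1 / (4 * √C) * √(Real.log n) ≤ ℓ := by
    calc 1 / (4 * √C) * √(Real.log n) ≤ 1 / (4 * √C) * (√C * (1 + ℓ)) := by gcongr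
      _ = (1 + ℓ) / 4 := by field_simp
      _ ≤ ℓ := by linarith
  calc (n : ℝ) * Real.exp (1 / (4 * √C) * √(Real.log n)) ≤ n * Real.exp ℓ := by gcongr
    _ = v n := by
      rw [hℓ, Real.exp_log (by positivity)]
      field_simp

end Pool.Agent.Results.MP_577aaf_co.ExpSqrtLog
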